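import Pool.Agent.Helper940.GLFinal

set_option autoImplicit false

/-!
A finitely generated contracting self-similar group with no finite endomorphic presentation, even if
finitely many additional fixed relators are allowed.
-/

namespace Pool.Agent.Results.MP_791a91_al.General

/-- sections along words -/
theorem sections {d : ℕ} (G : Subgroup (Equiv.Perm (List (Fin d)))) (h0 : ∀ g ∈ G, g [] = [])
    (h1 : ∀ g ∈ G, ∀ x : Fin d, ∃ y : Fin d, ∃ h ∈ G, ∀ w : List (Fin d), g (x :: w) = y :: h w)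
    (v : List (Fin d)) : ∀ g ∈ G, ∃ h ∈ G, ∀ w : List (Fin d), g (v ++ w) = g v ++ h w := by
  induction v with
  | nil =>
    intro g hg
    exact ⟨g, hg, fun w => by rw [h0 g hg]; rfl⟩
  | cons x v ih =>
    intro g hg
    obtain ⟨y, s, hs, h2⟩ := h1 g hg x
    obtain ⟨h, hh, h3⟩ := ih s hs
    refine ⟨h, hh, fun w => ?_⟩
    rw [List.cons_append, h2, h2, h3, List.cons_append]

theorem result : ∃ (d : ℕ) (G : Subgroup (Equiv.Perm (List (Fin d)))),
    2 ≤ d ∧ Group.FG G ∧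
    (∀ g ∈ G, g [] = []) ∧
    (∀ g ∈ G, ∀ x : Fin d, ∃ y : Fin d, ∃ h ∈ G, ∀ w : List (Fin d), g (x :: w) = y :: h w) ∧
    (∃ N : Finset (Equiv.Perm (List (Fin d))), (∀ h ∈ N, h ∈ G) ∧
      ∀ g ∈ G, ∃ n : ℕ, ∀ v : List (Fin d), n ≤ v.length →
        ∃ h ∈ N, ∀ w : List (Fin d), g (v ++ w) = g v ++ h w) ∧
    ∀ (m : ℕ) (Q R : Finset (FreeGroup (Fin m))) (Φ : Finset (Monoid.End (FreeGroup (Fin m)))),
      ¬ Nonempty (G ≃* PresentedGroup {x : FreeGroup (Fin m) | x ∈ Q ∨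
        ∃ σ ∈ Submonoid.closure (Φ : Set (Monoid.End (FreeGroup (Fin m)))), ∃ r ∈ R, x = σ r}) := by
  classical
  obtain ⟨d, G, h1, h2, h3, h4, ⟨N, hN⟩, h6⟩ := Pool.Agent.Helper940.GL.main
  refine ⟨d, G, h1, h2, h3, h4, ⟨N.filter fun h => h ∈ G, ?_, ?_⟩, ?_⟩
  · intro h hh
    exact (Finset.mem_filter.1 hh).2
  · intro g hg
    obtain ⟨k, hk⟩ := hN g hg
    refine ⟨k, fun v hv => ?_⟩
    obtain ⟨h, hh, h7⟩ := sections G h3 h4 v g hg
    exact ⟨h, Finset.mem_filter.2 ⟨hk v hv h hh h7, hh⟩, h7⟩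
  · intro m Q R Φ h
    exact h6 ⟨m, Q, R, Φ, h⟩

end Pool.Agent.Results.MP_791a91_al.General
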